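import Pool.Agent.H692R2.ImpMain
import Pool.Agent.H642R2.TMSim

/-!
# Deciding `imp(G) ≤ 5/4` is NP-hard

For the fixed threshold `t = 5/4`, deciding whether an input graph (given by its adjacency matrix)
has imperfection ratio at most `t` is NP-hard; hence a polynomial-time algorithm for this problem
exists only if P = NP.

Idea: for a triangle-free graph the imperfection ratio is half the fractional chromatic number;
for the Cartesian product of a graph `S` with the 5-cycle the fractional chromatic number is at most
`5/2` exactly when `S` has a homomorphism to the 5-cycle; and the graph `S` obtained from `H` by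
replacing each edge with a path of length three has such a homomorphism exactly when `H` is
5-colourable.
-/

namespace Pool.Agent.Results.MP_b9c7f5_lc.NPHardFiveFourths

open Pool.Agent.NPC Pool.Agent.H692R2

/-- A property of graphs is decidable in polynomial time: a polynomial-time computable function on
bit strings answers `[true]` on the (adjacency matrix) code of a graph exactly when the graph has
the property. -/
def GraphPolyDecidable (Q : FinGraph → Prop) : Prop :=
  ∃ f : List Bool → List Bool, PolyTime f ∧ ∀ G : FinGraph, Q G ↔ f (bits G) = [true]

/-- `P = NP`: every language in `NP` is decided by a polynomial-time function. -/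
def PEqNP : Prop :=
  ∀ L : Set (List Bool), InNP L → ∃ f : List Bool → List Bool, PolyTime f ∧
    ∀ x, x ∈ L ↔ f x = [true]

/-- Deciding `imp G ≤ 5/4` is NP-hard, and it can be done in polynomial time only if `P = NP`. -/
theorem result : NPHardP (fun G : FinGraph => imp G.graph ≤ 5 / 4) ∧
    (GraphPolyDecidable (fun G : FinGraph => imp G.graph ≤ 5 / 4) → PEqNP) := by
  refine ⟨hard_imp.toNPHardP, ?_⟩
  rintro ⟨f, hf, hfG⟩ L hL
  obtain ⟨g, hg, hgL⟩ := hard_imp L hL
  refine ⟨fun x => f (bits (g x)), Pool.Agent.H642R2.TMSim.polyTime_comp hf (PC.toPolyTime hg),
    fun x => ?_⟩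
  rw [hgL x]
  exact hfG (g x)

end Pool.Agent.Results.MP_b9c7f5_lc.NPHardFiveFourths
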